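import Pool.Agent.H43.BZ.Stm

/-! # BZ, KEY1 -/

set_option autoImplicit false

open scoped RealInnerProductSpace

namespace Pool.Agent.H289.BZ

open Pool.Agent.H43.BZ

theorem lin (n : ℕ) : ∃ c : ℝ, 0 ≤ c ∧ ∀ b : ℝ, |b| ≤ 1 / 2 →
    ((1 + b) ^ n)⁻¹ ≤ 1 - n * b + c * b ^ 2 := by
  induction n with
  | zero => exact ⟨0, le_rfl, fun b _ => by simp⟩
  | succ n ih =>
    obtain ⟨c, hc, h⟩ := ih
    refine ⟨2 * (1 + n + c), by positivity, fun b hb => ?_⟩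
    have h1 := h b hb
    have hb' := abs_le.1 hb
    have hx : 0 < 1 + b := by linarith
    have hs0 : 0 < (1 + b)⁻¹ := inv_pos.2 hx
    have hs2 : (1 + b)⁻¹ ≤ 2 := by
      rw [inv_le_comm₀ hx (by norm_num)]
      linarith
    have hs : (1 + b)⁻¹ = 1 - b * (1 + b)⁻¹ := by
      field_simp
      ring
    rw [pow_succ, mul_inv]
    generalize (1 + b)⁻¹ = s at *
    have h2 : ((1 + b) ^ n)⁻¹ * s ≤ (1 - n * b + c * b ^ 2) * s :=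
      mul_le_mul_of_nonneg_right h1 hs0.le
    have h3 : (1 - n * b + c * b ^ 2) * s = 1 - (n + 1) * b + (1 + n + c) * b ^ 2 * s := by
      linear_combination (1 - (n + 1) * b) * hs
    have h4 : (1 + n + c) * b ^ 2 * s ≤ (1 + n + c) * b ^ 2 * 2 :=
      mul_le_mul_of_nonneg_left hs2 (by positivity)
    push_cast
    linarith

theorem two (n : ℕ) (c : ℝ) (hc : 0 ≤ c)
    (h : ∀ b : ℝ, |b| ≤ 1 / 2 → ((1 + b) ^ n)⁻¹ ≤ 1 - n * b + c * b ^ 2)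
    (a B : ℝ) (ha : 1 ≤ a) (hB : |B| ≤ 1 / 2) :
    ((a + B) ^ n)⁻¹ + ((a - B) ^ n)⁻¹ ≤ 2 * ((a ^ n)⁻¹ + c * B ^ 2) := by
  have ha0 : 0 < a := by linarith
  have hb : |B / a| ≤ 1 / 2 := by
    rw [abs_div, abs_of_pos ha0, div_le_iff₀ ha0]
    linarith [abs_nonneg B]
  have h1 := h (B / a) hb
  have h2 := h (-(B / a)) (by rwa [abs_neg])
  have e1 : a + B = a * (1 + B / a) := by field_simp
  have e2 : a - B = a * (1 + -(B / a)) := by field_simp; ring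
  rw [e1, e2, mul_pow, mul_pow, mul_inv, mul_inv]
  have h3 : (a ^ n)⁻¹ ≤ 1 := inv_le_one_of_one_le₀ (one_le_pow₀ ha)
  have h4 : 0 < (a ^ n)⁻¹ := by positivity
  have h5 : (B / a) ^ 2 ≤ B ^ 2 := by
    rw [div_pow]
    exact div_le_self (sq_nonneg B) (one_le_pow₀ ha)
  have h6 : ((1 + B / a) ^ n)⁻¹ + ((1 + -(B / a)) ^ n)⁻¹ ≤ 2 + 2 * (c * (B / a) ^ 2) := by
    have : (-(B / a)) ^ 2 = (B / a) ^ 2 := by ring
    rw [this] at h2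
    linarith
  have h7 : c * (B / a) ^ 2 ≤ c * B ^ 2 := mul_le_mul_of_nonneg_left h5 hc
  have h8 : (a ^ n)⁻¹ * (((1 + B / a) ^ n)⁻¹ + ((1 + -(B / a)) ^ n)⁻¹) ≤
      (a ^ n)⁻¹ * (2 + 2 * (c * B ^ 2)) :=
    mul_le_mul_of_nonneg_left (by linarith) h4.le
  have h9 : (a ^ n)⁻¹ * (2 * (c * B ^ 2)) ≤ 1 * (2 * (c * B ^ 2)) :=
    mul_le_mul_of_nonneg_right h3 (by positivity)
  linarith

theorem gs {V : Type} [NormedAddCommGroup V] [InnerProductSpace ℝ V] (v z : V) (ρ β : ℝ) :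
    (inner ℝ (ρ • v - β • z) (ρ • v - β • z) : ℝ) =
      ρ ^ 2 * ‖v‖ ^ 2 - 2 * (ρ * β * inner ℝ v z) + β ^ 2 * ‖z‖ ^ 2 := by
  rw [real_inner_self_eq_norm_sq, norm_sub_sq_real, norm_smul, norm_smul, real_inner_smul_left,
    real_inner_smul_right, mul_pow, mul_pow, Real.norm_eq_abs, Real.norm_eq_abs, sq_abs, sq_abs]
  ring

theorem gram {V : Type} [NormedAddCommGroup V] [InnerProductSpace ℝ V] (v w X : V) (t : ℝ)
    (h1 : inner ℝ X (v - w) = 0) (h2 : ‖X‖ = t * ‖v - w‖) :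
    (inner ℝ X v : ℝ) ^ 2 ≤ t ^ 2 * (‖v‖ ^ 2 * ‖w‖ ^ 2) := by
  by_cases hr : ‖v - w‖ = 0
  · rw [hr, mul_zero, norm_eq_zero] at h2
    rw [h2, inner_zero_left]
    have : (0 : ℝ) ≤ t ^ 2 * (‖v‖ ^ 2 * ‖w‖ ^ 2) := by positivity
    simpa using this
  · have hr0 : 0 < ‖v - w‖ := lt_of_le_of_ne (norm_nonneg _) (Ne.symm hr)
    have hcs := real_inner_mul_inner_self_le X
      ((‖v - w‖ ^ 2) • v - (inner ℝ v (v - w)) • (v - w))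
    have e1 : inner ℝ X ((‖v - w‖ ^ 2) • v - (inner ℝ v (v - w) : ℝ) • (v - w)) =
        ‖v - w‖ ^ 2 * inner ℝ X v := by
      rw [inner_sub_right, inner_smul_right, inner_smul_right, h1, mul_zero, sub_zero]
    have e2 : inner ℝ ((‖v - w‖ ^ 2) • v - (inner ℝ v (v - w) : ℝ) • (v - w))
        ((‖v - w‖ ^ 2) • v - (inner ℝ v (v - w) : ℝ) • (v - w)) =
        ‖v - w‖ ^ 2 * (‖v - w‖ ^ 2 * ‖v‖ ^ 2 - (inner ℝ v (v - w) : ℝ) ^ 2) := by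
      rw [gs]
      ring
    rw [e1, e2, real_inner_self_eq_norm_sq, h2] at hcs
    have e3 : ‖v - w‖ ^ 2 = ‖v‖ ^ 2 - 2 * inner ℝ v w + ‖w‖ ^ 2 := norm_sub_sq_real v w
    have e4 : (inner ℝ v (v - w) : ℝ) = ‖v‖ ^ 2 - inner ℝ v w := by
      rw [inner_sub_right, real_inner_self_eq_norm_sq]
    have e5 : ‖v - w‖ ^ 2 * ‖v‖ ^ 2 - (inner ℝ v (v - w) : ℝ) ^ 2 =
        ‖v‖ ^ 2 * ‖w‖ ^ 2 - (inner ℝ v w : ℝ) ^ 2 := by
      rw [e4, e3]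
      ring
    rw [e5] at hcs
    have h3 : (‖v - w‖ ^ 2) ^ 2 * (inner ℝ X v : ℝ) ^ 2 ≤
        (‖v - w‖ ^ 2) ^ 2 * (t ^ 2 * (‖v‖ ^ 2 * ‖w‖ ^ 2)) := by
      have h4 : (0 : ℝ) ≤ (‖v - w‖ ^ 2) ^ 2 * (t ^ 2 * (inner ℝ v w : ℝ) ^ 2) := by positivity
      nlinarith
    exact le_of_mul_le_mul_left h3 (by positivity)

theorem chi_le1 {V : Type} [NormedAddCommGroup V] (n : ℕ) (v y : V) :
    chi v y * ((1 + ‖y‖ ^ 2) ^ n)⁻¹ ≤ ((1 + ‖v‖ ^ 2) ^ n)⁻¹ * 4 ^ n := by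
  unfold chi
  split_ifs with h
  · rw [one_mul, inv_mul_eq_div, le_div_iff₀ (by positivity), inv_mul_le_iff₀ (by positivity),
      ← mul_pow]
    apply pow_le_pow_left₀ (by positivity)
    linarith
  · rw [zero_mul]
    positivity

theorem chi_le2 {V : Type} [NormedAddCommGroup V] (n : ℕ) (v y : V) (u : ℝ)
    (hu : 1 + ‖y‖ ^ 2 = (1 + ‖v‖ ^ 2) * u) :
    chi v y * ((1 + ‖y‖ ^ 2) ^ n)⁻¹ ≤ ((1 + ‖v‖ ^ 2) ^ n)⁻¹ * (u ^ n)⁻¹ := by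
  have h1 : ((1 + ‖y‖ ^ 2) ^ n)⁻¹ = ((1 + ‖v‖ ^ 2) ^ n)⁻¹ * (u ^ n)⁻¹ := by
    rw [hu, mul_pow, mul_inv]
  rw [← h1]
  unfold chi
  split_ifs
  · rw [one_mul]
  · rw [zero_mul]
    positivity

theorem pow_le_lin (m : ℕ) (x : ℝ) (h0 : 0 ≤ x) (h1 : x ≤ 1) :
    (1 + x) ^ m ≤ 1 + 2 ^ m * x := by
  suffices h : (1 + x) ^ m ≤ 1 + (2 ^ m - 1) * x by linarith
  induction m with
  | zero => simp
  | succ m ih =>
    have h2 : (1 : ℝ) ≤ 2 ^ m := one_le_pow₀ (by norm_num)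
    have h3 : (1 + x) ^ m * (1 + x) ≤ (1 + (2 ^ m - 1) * x) * (1 + x) :=
      mul_le_mul_of_nonneg_right ih (by linarith)
    have h4 : (2 ^ m - 1) * (x * x) ≤ (2 ^ m - 1) * (x * 1) :=
      mul_le_mul_of_nonneg_left (mul_le_mul_of_nonneg_left h1 h0) (by linarith)
    rw [pow_succ, pow_succ]
    nlinarith

/-- the slow case: lower bound for the distance -/
theorem slow_r (x y r : ℝ) (hx : 1 ≤ x) (hy : 0 ≤ y) (h : 256 * y ^ 2 ≤ 1 + x ^ 2)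
    (hr : x - y ≤ r) : (1 + x ^ 2) / 4 ≤ r ^ 2 := by
  have h1 : 8 * y ≤ x := by
    refine (pow_le_pow_iff_left₀ (by linarith) (by linarith) two_ne_zero).1 ?_
    nlinarith
  have h2 : 7 / 8 * x ≤ r := by linarith
  have h3 : (7 / 8 * x) ^ 2 ≤ r ^ 2 := pow_le_pow_left₀ (by linarith) h2 2
  nlinarith

theorem phi_slow (d : ℕ) (t A : ℝ) (hA : t ^ 2 / 4 ≤ A) :
    ((1 + A) ^ (4 * (d + 3)))⁻¹ * (1 + t ^ 2) ^ (d + 2) ≤ (1 + t ^ 2)⁻¹ := by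
  have h0 : 0 ≤ t ^ 2 := sq_nonneg t
  have h1 : 1 + t ^ 2 ≤ (1 + A) ^ 4 := by
    have h2 : (1 + t ^ 2 / 4) ^ 4 ≤ (1 + A) ^ 4 := pow_le_pow_left₀ (by positivity) (by linarith) 4
    nlinarith [pow_nonneg h0 2, pow_nonneg h0 3, pow_nonneg h0 4]
  have h2 : (1 + t ^ 2) ^ (d + 3) ≤ (1 + A) ^ (4 * (d + 3)) := by
    rw [pow_mul]
    exact pow_le_pow_left₀ (by positivity) h1 _
  have hpos : 0 < (1 + t ^ 2) ^ (d + 3) := by positivity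
  calc ((1 + A) ^ (4 * (d + 3)))⁻¹ * (1 + t ^ 2) ^ (d + 2)
      ≤ ((1 + t ^ 2) ^ (d + 3))⁻¹ * (1 + t ^ 2) ^ (d + 2) :=
        mul_le_mul_of_nonneg_right (inv_anti₀ hpos h2) (by positivity)
    _ = (1 + t ^ 2)⁻¹ := by
        rw [pow_succ (1 + t ^ 2) (d + 2), mul_inv, mul_right_comm,
          inv_mul_cancel₀ (by positivity), one_mul]

theorem core (d : ℕ) (c : ℝ) (hc : 0 ≤ c)
    (hlin : ∀ b : ℝ, |b| ≤ 1 / 2 → ((1 + b) ^ (4 * (d + 3)))⁻¹ ≤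
      1 - (4 * (d + 3) : ℕ) * b + c * b ^ 2)
    {V : Type} [NormedAddCommGroup V] [InnerProductSpace ℝ V] (v w X : V) (t : ℝ)
    (ht0 : 0 ≤ t) (ht1 : t ≤ 1) (h1 : inner ℝ X (v - w) = 0) (h2 : ‖X‖ = t * ‖v - w‖) :
    (chi v (v + X) * P d (v + X) + chi v (v - X) * P d (v - X)) / 2 * (1 + t ^ 2) ^ (d + 2) ≤
      P d v * ((open Classical in if Slow v w then (1 + t ^ 2)⁻¹ else 1) +
        (13 * c * 2 ^ (d + 2) + 290 * (2 ^ (d + 2) + 4 * c * 2 ^ (d + 2)) +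
          4640 * 4 ^ (4 * (d + 3)) * 2 ^ (d + 2)) * er t (1 + ‖w‖) ‖v - w‖) := by
  classical
  have hg := gram v w X t h1 h2
  have hr1 : ‖v‖ - ‖w‖ ≤ ‖v - w‖ := norm_sub_norm_le v w
  have hr2 : ‖v - w‖ ≤ ‖v‖ + ‖w‖ := norm_sub_le v w
  have hr0 : 0 ≤ ‖v - w‖ := norm_nonneg _
  have hv0 : 0 ≤ ‖v‖ := norm_nonneg _
  have hw0 : 0 ≤ ‖w‖ := norm_nonneg _
  have ep : 1 + ‖v + X‖ ^ 2 = (1 + ‖v‖ ^ 2) *
      ((1 + t ^ 2 * ‖v - w‖ ^ 2 / (1 + ‖v‖ ^ 2)) + 2 * inner ℝ X v / (1 + ‖v‖ ^ 2)) := by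
    have hD : 1 + ‖v‖ ^ 2 ≠ 0 := by positivity
    rw [norm_add_sq_real, real_inner_comm, h2]
    field_simp
    ring
  have em : 1 + ‖v - X‖ ^ 2 = (1 + ‖v‖ ^ 2) *
      ((1 + t ^ 2 * ‖v - w‖ ^ 2 / (1 + ‖v‖ ^ 2)) - 2 * inner ℝ X v / (1 + ‖v‖ ^ 2)) := by
    have hD : 1 + ‖v‖ ^ 2 ≠ 0 := by positivity
    rw [norm_sub_sq_real, real_inner_comm, h2]
    field_simp
    ring
  have hP : 0 < P d v := by
    unfold P
    positivity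
  have g1 : chi v (v + X) * P d (v + X) + chi v (v - X) * P d (v - X) ≤
      2 * (P d v * 4 ^ (4 * (d + 3))) := by
    have a1 := chi_le1 (4 * (d + 3)) v (v + X)
    have a2 := chi_le1 (4 * (d + 3)) v (v - X)
    unfold P
    linarith
  have g2 : |2 * inner ℝ X v / (1 + ‖v‖ ^ 2)| ≤ 1 / 2 →
      chi v (v + X) * P d (v + X) + chi v (v - X) * P d (v - X) ≤
      2 * (P d v * (((1 + t ^ 2 * ‖v - w‖ ^ 2 / (1 + ‖v‖ ^ 2)) ^ (4 * (d + 3)))⁻¹ +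
        c * (2 * inner ℝ X v / (1 + ‖v‖ ^ 2)) ^ 2)) := by
    intro hB
    have a1 := chi_le2 (4 * (d + 3)) v (v + X) _ ep
    have a2 := chi_le2 (4 * (d + 3)) v (v - X) _ em
    have a3 := two (4 * (d + 3)) c hc hlin (1 + t ^ 2 * ‖v - w‖ ^ 2 / (1 + ‖v‖ ^ 2))
      (2 * inner ℝ X v / (1 + ‖v‖ ^ 2)) (by
        have : 0 ≤ t ^ 2 * ‖v - w‖ ^ 2 / (1 + ‖v‖ ^ 2) := by positivity
        linarith) hB
    have a4 := mul_le_mul_of_nonneg_left a3 hP.le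
    unfold P at a4 ⊢
    linarith
  have hB2 : (2 * inner ℝ X v / (1 + ‖v‖ ^ 2)) ^ 2 ≤ 4 * t ^ 2 * ‖w‖ ^ 2 / (1 + ‖v‖ ^ 2) := by
    rw [div_pow, div_le_div_iff₀ (by positivity) (by positivity)]
    have b1 : (2 * (inner ℝ X v : ℝ)) ^ 2 ≤ 4 * t ^ 2 * ‖w‖ ^ 2 * (1 + ‖v‖ ^ 2) := by
      have : (0 : ℝ) ≤ t ^ 2 * ‖w‖ ^ 2 := by positivity
      nlinarith
    calc _ ≤ 4 * t ^ 2 * ‖w‖ ^ 2 * (1 + ‖v‖ ^ 2) * (1 + ‖v‖ ^ 2) :=
          mul_le_mul_of_nonneg_right b1 (by positivity)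
      _ = _ := by ring
  generalize hBB : 2 * inner ℝ X v / (1 + ‖v‖ ^ 2) = B at *
  generalize hAA : t ^ 2 * ‖v - w‖ ^ 2 / (1 + ‖v‖ ^ 2) = A at *
  have hA0 : 0 ≤ A := by
    rw [← hAA]
    positivity
  have hΦ1 : 1 ≤ (1 + t ^ 2) ^ (d + 2) := one_le_pow₀ (by nlinarith [sq_nonneg t])
  have ht2 : t ^ 2 ≤ 1 := pow_le_one₀ ht0 ht1
  have hΦ2 : (1 + t ^ 2) ^ (d + 2) ≤ 2 ^ (d + 2) :=
    pow_le_pow_left₀ (by positivity) (by linarith) _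
  have hΦ3 := pow_le_lin (d + 2) (t ^ 2) (sq_nonneg t) ht2
  have hL : 1 ≤ 1 + ‖w‖ := by linarith
  have hμ1 : t ^ 2 ≤ min 1 (t ^ 2 * (1 + ‖w‖) ^ 2) := by
    refine le_min ht2 ?_
    exact le_mul_of_one_le_right (sq_nonneg t) (one_le_pow₀ hL)
  have hμ0 : 0 ≤ min 1 (t ^ 2 * (1 + ‖w‖) ^ 2) := le_trans (sq_nonneg t) hμ1
  have hQ0 : (1 : ℝ) ≤ 2 ^ (d + 2) := one_le_pow₀ (by norm_num)
  have hF0 : (1 : ℝ) ≤ 4 ^ (4 * (d + 3)) := one_le_pow₀ (by norm_num)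
  have her : er t (1 + ‖w‖) ‖v - w‖ * (1 + (‖v - w‖ / (1 + ‖w‖)) ^ 2) =
      min 1 (t ^ 2 * (1 + ‖w‖) ^ 2) := by
    unfold er
    exact div_mul_cancel₀ _ (by positivity)
  have her0 : 0 ≤ er t (1 + ‖w‖) ‖v - w‖ := by
    unfold er
    positivity
  generalize er t (1 + ‖w‖) ‖v - w‖ = e at *
  generalize hmu : min 1 (t ^ 2 * (1 + ‖w‖) ^ 2) = μ at *
  have hr3 : ‖v - w‖ / (1 + ‖w‖) * (1 + ‖w‖) = ‖v - w‖ := div_mul_cancel₀ _ (by positivity)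
  have hρ0 : 0 ≤ ‖v - w‖ / (1 + ‖w‖) := by positivity
  generalize ‖v - w‖ / (1 + ‖w‖) = ρ at *
  have hsl := phi_slow d t A
  have hA1 : ((1 + A) ^ (4 * (d + 3)))⁻¹ ≤ 1 :=
    inv_le_one_of_one_le₀ (one_le_pow₀ (by linarith))
  have hA2 : 0 ≤ ((1 + A) ^ (4 * (d + 3)))⁻¹ := by positivity
  generalize ((1 + A) ^ (4 * (d + 3)))⁻¹ = α at *
  generalize (1 + t ^ 2) ^ (d + 2) = Φ at *
  generalize (2 : ℝ) ^ (d + 2) = Q at *
  generalize (4 : ℝ) ^ (4 * (d + 3)) = W at *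
  generalize hSS : chi v (v + X) * P d (v + X) + chi v (v - X) * P d (v - X) = Y at *
  generalize P d v = p at *
  have hx0 : 0 ≤ ‖v‖ ^ 2 := sq_nonneg _
  have hy0 : 0 ≤ ‖w‖ ^ 2 := sq_nonneg _
  have hDB : B ^ 2 * (1 + ‖v‖ ^ 2) ≤ 4 * t ^ 2 * ‖w‖ ^ 2 := by
    rwa [le_div_iff₀ (by positivity)] at hB2
  have hB20 : 0 ≤ B ^ 2 := sq_nonneg B
  have ht20 : 0 ≤ t ^ 2 := sq_nonneg t
  have hcQ : 0 ≤ c * Q := mul_nonneg hc (by linarith)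
  have hWQ : 0 ≤ W * Q := mul_nonneg (by linarith) (by linarith)
  -- the final step
  have fin1 : ∀ Z : ℝ, Y ≤ 2 * (p * Z) → ∀ R : ℝ, Z * Φ ≤ R → Y / 2 * Φ ≤ p * R := by
    intro Z hZ R hR
    have c1 : Y / 2 * Φ ≤ p * Z * Φ := mul_le_mul_of_nonneg_right (by linarith) (by linarith)
    have c2 : p * (Z * Φ) ≤ p * R := mul_le_mul_of_nonneg_left hR hP.le
    linarith
  by_cases hS : Slow v w
  · rw [if_pos hS]
    obtain ⟨hv1, hvw⟩ := hS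
    have hrr := slow_r ‖v‖ ‖w‖ ‖v - w‖ hv1 hw0 hvw hr1
    have hA4 : t ^ 2 / 4 ≤ A := by
      rw [← hAA, le_div_iff₀ (by positivity)]
      have := mul_le_mul_of_nonneg_left hrr ht20
      linarith
    have hB4 : B ^ 2 ≤ (1 / 2) ^ 2 := by
      have c1 : t ^ 2 * ‖w‖ ^ 2 ≤ 1 * ‖w‖ ^ 2 := mul_le_mul_of_nonneg_right ht2 hy0
      have c2 : B ^ 2 * (1 + ‖v‖ ^ 2) ≤ 1 / 4 * (1 + ‖v‖ ^ 2) := by linarith
      have c3 := le_of_mul_le_mul_right c2 (by positivity)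
      linarith
    have hB : |B| ≤ 1 / 2 := abs_le_of_sq_le_sq hB4 (by norm_num)
    have h13 : B ^ 2 ≤ 13 * e := by
      have c1 : ‖w‖ * ρ ≤ ‖v - w‖ := by
        rw [← hr3, mul_add, mul_one, mul_comm ρ]
        linarith
      have c2 : (‖w‖ * ρ) ^ 2 ≤ (‖v‖ + ‖w‖) ^ 2 :=
        pow_le_pow_left₀ (by positivity) (c1.trans hr2) 2
      have c3 : 4 * (‖w‖ ^ 2 * (1 + ρ ^ 2)) ≤ 13 * (1 + ‖v‖ ^ 2) := by
        have c21 := sq_nonneg (‖v‖ - ‖w‖)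
        have c22 : 4 * (‖w‖ ^ 2 * (1 + ρ ^ 2)) = 4 * ‖w‖ ^ 2 + 4 * (‖w‖ * ρ) ^ 2 := by ring
        have c23 : (‖v‖ + ‖w‖) ^ 2 + (‖v‖ - ‖w‖) ^ 2 = 2 * ‖v‖ ^ 2 + 2 * ‖w‖ ^ 2 := by ring
        rw [c22]
        linarith
      have c4 : B ^ 2 * (1 + ‖v‖ ^ 2) * (1 + ρ ^ 2) ≤ 4 * t ^ 2 * ‖w‖ ^ 2 * (1 + ρ ^ 2) :=
        mul_le_mul_of_nonneg_right hDB (by positivity)
      have c5 := mul_le_mul_of_nonneg_left c3 ht20
      have c6 : (B ^ 2 * (1 + ρ ^ 2)) * (1 + ‖v‖ ^ 2) ≤ (13 * t ^ 2) * (1 + ‖v‖ ^ 2) := by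
        linarith
      have c7 := le_of_mul_le_mul_right c6 (by positivity)
      have c8 : B ^ 2 * (1 + ρ ^ 2) ≤ 13 * e * (1 + ρ ^ 2) := by
        rw [mul_assoc, her]
        linarith
      exact le_of_mul_le_mul_right c8 (by positivity)
    refine fin1 _ (g2 hB) _ ?_
    have c1 := hsl hA4
    have c2 : c * B ^ 2 * Φ ≤ c * (13 * e) * Q :=
      mul_le_mul (mul_le_mul_of_nonneg_left h13 hc) hΦ2 (by linarith) (by positivity)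
    have c3 : 0 ≤ (290 * (Q + 4 * c * Q) + 4640 * W * Q) * e :=
      mul_nonneg (by linarith) her0
    linarith
  · rw [if_neg hS]
    have hρ : ρ ≤ 17 := by
      have c1 : ρ * (1 + ‖w‖) ≤ 17 * (1 + ‖w‖) := by
        rw [hr3]
        by_cases hv1 : 1 ≤ ‖v‖
        · have c2 : 1 + ‖v‖ ^ 2 < 256 * ‖w‖ ^ 2 := by
            by_contra hcon
            exact hS ⟨hv1, not_lt.1 hcon⟩
          have c3 : ‖v‖ ≤ 16 * ‖w‖ := by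
            refine (pow_le_pow_iff_left₀ hv0 (by linarith) two_ne_zero).1 ?_
            rw [mul_pow]
            linarith
          linarith
        · linarith
      exact le_of_mul_le_mul_right c1 (by linarith)
    have hμe : μ ≤ 290 * e := by
      rw [← her]
      have c1 : ρ ^ 2 ≤ 17 ^ 2 := pow_le_pow_left₀ hρ0 hρ 2
      have c2 : e * (1 + ρ ^ 2) ≤ e * 290 := mul_le_mul_of_nonneg_left (by linarith) her0
      linarith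
    have hB5 : B ^ 2 ≤ 4 * (t ^ 2 * (1 + ‖w‖) ^ 2) := by
      have c1 : B ^ 2 * 1 ≤ B ^ 2 * (1 + ‖v‖ ^ 2) :=
        mul_le_mul_of_nonneg_left (by linarith) hB20
      have c2 : t ^ 2 * ‖w‖ ^ 2 ≤ t ^ 2 * (1 + ‖w‖) ^ 2 :=
        mul_le_mul_of_nonneg_left (pow_le_pow_left₀ hw0 (by linarith) 2) ht20
      linarith
    by_cases hB : |B| ≤ 1 / 2
    · have hB6 : B ^ 2 ≤ 4 * μ := by
        rw [← hmu]
        have c1 : B ^ 2 ≤ (1 / 2) ^ 2 := sq_le_sq' (by linarith [(abs_le.1 hB).1])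
          (abs_le.1 hB).2
        rcases min_cases (1 : ℝ) (t ^ 2 * (1 + ‖w‖) ^ 2) with h | h
        · rw [h.1]
          linarith
        · rw [h.1]
          exact hB5
      refine fin1 _ (g2 hB) _ ?_
      have c2 : c * B ^ 2 * Φ ≤ c * (4 * μ) * Q :=
        mul_le_mul (mul_le_mul_of_nonneg_left hB6 hc) hΦ2 (by linarith) (by positivity)
      have c3 : α * Φ ≤ 1 * Φ := mul_le_mul_of_nonneg_right hA1 (by linarith)
      have c4 : Q * t ^ 2 ≤ Q * μ := mul_le_mul_of_nonneg_left hμ1 (by linarith)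
      have c5 : (Q + 4 * c * Q) * μ ≤ (Q + 4 * c * Q) * (290 * e) :=
        mul_le_mul_of_nonneg_left hμe (by linarith)
      have c6 : 0 ≤ (13 * c * Q + 4640 * W * Q) * e := mul_nonneg (by linarith) her0
      linarith
    · have hB7 : 1 / 4 ≤ B ^ 2 := by
        rw [← sq_abs]
        push Not at hB
        have c1 : (1 / 2 : ℝ) ^ 2 ≤ |B| ^ 2 := pow_le_pow_left₀ (by norm_num) hB.le 2
        linarith
      have hμ2 : 1 / 16 ≤ μ := by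
        rw [← hmu]
        exact le_min (by norm_num) (by linarith)
      refine fin1 _ g1 _ ?_
      have c1 : W * Φ ≤ W * Q := mul_le_mul_of_nonneg_left hΦ2 (by linarith)
      have c2 : W * Q * (1 / 16) ≤ W * Q * (290 * e) :=
        mul_le_mul_of_nonneg_left (hμ2.trans hμe) hWQ
      have c6 : 0 ≤ (13 * c * Q + 290 * (Q + 4 * c * Q)) * e := mul_nonneg (by linarith) her0
      linarith

theorem KEY1 : S_KEY1 := by
  intro d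
  obtain ⟨c, hc, h⟩ := lin (4 * (d + 3))
  refine ⟨13 * c * 2 ^ (d + 2) + 290 * (2 ^ (d + 2) + 4 * c * 2 ^ (d + 2)) +
    4640 * 4 ^ (4 * (d + 3)) * 2 ^ (d + 2), by positivity, ?_⟩
  intro V _ _ v w X t ht0 ht1 h1 h2
  exact core d c hc h v w X t ht0 ht1 h1 h2

end Pool.Agent.H289.BZ
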